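import Pool.Agent.Lib.MP_0dc5ba_lc.Core

set_option autoImplicit false

namespace Pool.Agent.Results.MP_0dc5ba_lc.Oligomorphic

open Pool.Agent.Lib.MP_0dc5ba_lc

theorem tuples {G : Subgroup (Equiv.Perm ℕ)} (hO : Olig G) (k : ℕ) :
    ∀ E : Finset ℕ, ∃ F : Finset (Fin k → ℕ), ∀ t : Fin k → ℕ,
      ∃ g ∈ G, (∀ e ∈ E, g e = e) ∧ (fun i => g (t i)) ∈ F := by
  classical
  induction k with
  | zero =>
    intro E
    refine ⟨{fun i => i.elim0}, fun t => ⟨1, G.one_mem, by simp, ?_⟩⟩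
    rw [Finset.mem_singleton]
    funext i
    exact i.elim0
  | succ k ih =>
    intro E
    obtain ⟨F0, hF0⟩ := hO E
    choose F hF using ih
    refine ⟨F0.biUnion fun f => (F (insert f E)).image (fun u => (Fin.cons f u : Fin (k + 1) → ℕ)),
      fun t => ?_⟩
    obtain ⟨g1, hg1, h1, h1'⟩ := hF0 (t 0)
    obtain ⟨g2, hg2, h2, h2'⟩ := hF (insert (g1 (t 0)) E) (fun i => g1 (t i.succ))
    refine ⟨g2 * g1, G.mul_mem hg2 hg1, ?_, ?_⟩
    · intro e he
      rw [Equiv.Perm.mul_apply, h1 e he, h2 e (Finset.mem_insert_of_mem he)]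
    · rw [Finset.mem_biUnion]
      refine ⟨g1 (t 0), h1', Finset.mem_image.mpr ⟨_, h2', ?_⟩⟩
      funext i
      refine Fin.cases ?_ (fun j => ?_) i
      · simp only [Fin.cons_zero, Equiv.Perm.mul_apply]
        exact (h2 _ (Finset.mem_insert_self _ _)).symm
      · simp only [Fin.cons_succ, Equiv.Perm.mul_apply]

/-- Every maximal cofinitary group has only finitely many orbits on `k`-tuples, for every `k`. -/
theorem result (G : Subgroup (Equiv.Perm ℕ))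
    (hcof : ∀ g ∈ G, g ≠ 1 → Set.Finite {n : ℕ | g n = n})
    (hmax : ∀ H : Subgroup (Equiv.Perm ℕ), G ≤ H →
      (∀ h ∈ H, h ≠ 1 → Set.Finite {n : ℕ | h n = n}) → H = G) (k : ℕ) :
    ∃ F : Finset (Fin k → ℕ), ∀ t : Fin k → ℕ, ∃ g ∈ G, (fun i => g (t i)) ∈ F := by
  obtain ⟨F, hF⟩ := tuples (olig_of_maximal G hcof hmax) k ∅
  refine ⟨F, fun t => ?_⟩
  obtain ⟨g, hg, -, h⟩ := hF t
  exact ⟨g, hg, h⟩

end Pool.Agent.Results.MP_0dc5ba_lc.Oligomorphic
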